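import Pool.Agent.H596R2.ChainMem
import Pool.Agent.H596R2.Sigma2Coll

/-!
# CHAIN MINOR is `Σ₂ᵖ`-complete, so it is in `NP` iff `NP = coNP`
-/

namespace Pool.Agent.Results.MP_292d26_lc.ChainMinorSigma2

open Pool.Agent.H596R2 Pool.Agent.NPC Pool.Agent.NPC.S2

/-- CHAIN MINOR is in `Σ₂ᵖ`, it is `Σ₂ᵖ`-hard under polynomial-time many-one reductions, and
consequently it is in `NP` if and only if `NP = coNP`. -/
theorem result : InSigma2P ChainMinor ∧ Sigma2HardP ChainMinor ∧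
    (InNPP ChainMinor ↔ ∀ L : Set (List Bool), InNP L ↔ InNP Lᶜ) :=
  ⟨Pool.Agent.NPC.H596.inSigma2P_chainMinor, Pool.Agent.NPC.H596.hardS2_chainMinor.toSigma2HardP,
    sigma2Complete_inNP_iff Pool.Agent.NPC.H596.inSigma2P_chainMinor
      Pool.Agent.NPC.H596.hardS2_chainMinor.toSigma2HardP⟩

end Pool.Agent.Results.MP_292d26_lc.ChainMinorSigma2
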